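import Pool.Agent.V5helper90.ZL.StmA

/-!
# The special orthogonal group of a nondegenerate subspace is generated by rotations (job SO)
-/

set_option autoImplicit false

namespace Pool.Agent.V5helper29.ZL

open Matrix Pool.Agent.V5helper90.ZL

section

variable {ι : Type} [Fintype ι]

lemma bil_add_left (Q : Matrix ι ι ℂ) (u v w : ι → ℂ) :
    bil Q (u + v) w = bil Q u w + bil Q v w := by
  simp [bil, add_dotProduct]

lemma bil_add_right (Q : Matrix ι ι ℂ) (u v w : ι → ℂ) :
    bil Q u (v + w) = bil Q u v + bil Q u w := by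
  simp [bil, Matrix.mulVec_add, dotProduct_add]

lemma bil_sub_left (Q : Matrix ι ι ℂ) (u v w : ι → ℂ) :
    bil Q (u - v) w = bil Q u w - bil Q v w := by
  simp [bil, sub_dotProduct]

lemma bil_sub_right (Q : Matrix ι ι ℂ) (u v w : ι → ℂ) :
    bil Q u (v - w) = bil Q u v - bil Q u w := by
  simp [bil, Matrix.mulVec_sub, dotProduct_sub]

lemma bil_smul_left (Q : Matrix ι ι ℂ) (c : ℂ) (v w : ι → ℂ) :
    bil Q (c • v) w = c * bil Q v w := by
  simp [bil, smul_dotProduct]

lemma bil_smul_right (Q : Matrix ι ι ℂ) (c : ℂ) (v w : ι → ℂ) :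
    bil Q v (c • w) = c * bil Q v w := by
  simp [bil, Matrix.mulVec_smul, dotProduct_smul]

lemma bil_sum_left {κ : Type} (Q : Matrix ι ι ℂ) (s : Finset κ) (f : κ → ι → ℂ) (w : ι → ℂ) :
    bil Q (∑ k ∈ s, f k) w = ∑ k ∈ s, bil Q (f k) w := by
  simp [bil, sum_dotProduct]

lemma bil_sum_right {κ : Type} (Q : Matrix ι ι ℂ) (s : Finset κ) (f : κ → ι → ℂ) (w : ι → ℂ) :
    bil Q w (∑ k ∈ s, f k) = ∑ k ∈ s, bil Q w (f k) := by
  simp [bil, Matrix.mulVec_sum, dotProduct_sum]

lemma bil_symm {Q : Matrix ι ι ℂ} (hQ : Qᵀ = Q) (v w : ι → ℂ) : bil Q v w = bil Q w v := by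
  unfold bil
  rw [Matrix.dotProduct_mulVec, ← Matrix.mulVec_transpose, hQ, dotProduct_comm]

lemma bil_mulVec {Q P P' : Matrix ι ι ℂ} (h : Pᵀ * Q = Q * P') (v w : ι → ℂ) :
    bil Q (P *ᵥ v) w = bil Q v (P' *ᵥ w) := by
  unfold bil
  rw [Matrix.mulVec_mulVec, ← h, ← Matrix.mulVec_mulVec, ← Matrix.vecMul_transpose,
    Matrix.dotProduct_mulVec, Matrix.dotProduct_mulVec, Matrix.dotProduct_mulVec,
    Matrix.vecMul_vecMul]

lemma bil_nondeg [DecidableEq ι] {Q : Matrix ι ι ℂ} (hQ : IsUnit Q.det) {v : ι → ℂ}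
    (h : ∀ u, bil Q u v = 0) : v = 0 := by
  have h1 : Q *ᵥ v = 0 := by
    rw [← dotProduct_eq_zero_iff]
    intro u
    rw [dotProduct_comm]
    exact h u
  have h2 : Q⁻¹ *ᵥ (Q *ᵥ v) = v := by
    rw [Matrix.mulVec_mulVec, Matrix.nonsing_inv_mul _ hQ, Matrix.one_mulVec]
  rw [← h2, h1, Matrix.mulVec_zero]

/-- An orthonormal basis of the image of a self-adjoint projector. -/
lemma exists_onb [DecidableEq ι] {Q P : Matrix ι ι ℂ} (hQ : Qᵀ = Q) (hd : IsUnit Q.det)
    (hP : P * P = P) (hPQ : Pᵀ * Q = Q * P) :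
    ∃ (s : ℕ) (b : Fin s → ι → ℂ), (∀ i j, bil Q (b i) (b j) = if i = j then 1 else 0) ∧
      (∀ i, P *ᵥ b i = b i) ∧ ∀ w, P *ᵥ w = ∑ j, bil Q (b j) w • b j := by
  classical
  let M : Submodule ℂ (ι → ℂ) := LinearMap.range P.mulVecLin
  have hM : ∀ x : M, P *ᵥ (x : ι → ℂ) = x := by
    rintro ⟨x, y, rfl⟩
    simp only [Matrix.mulVecLin_apply, Matrix.mulVec_mulVec, hP]
  let B : LinearMap.BilinForm ℂ M := LinearMap.mk₂ ℂ (fun x y => bil Q x y)
    (fun a b c => by simp [bil_add_left]) (fun a b c => by simp [bil_smul_left])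
    (fun a b c => by simp [bil_add_right]) (fun a b c => by simp [bil_smul_right])
  have hB : ∀ x y : M, B x y = bil Q x y := fun x y => rfl
  have hsym : LinearMap.IsSymm B := ⟨fun x y => by
    simp only [hB, RingHom.id_apply]
    exact bil_symm hQ _ _⟩
  have hnd : B.SeparatingLeft := by
    intro x hx
    ext1
    apply bil_nondeg hd
    intro u
    have h1 := hx ⟨P *ᵥ u, u, rfl⟩
    rw [hB] at h1
    rw [← hM x, ← bil_mulVec hPQ, bil_symm hQ]
    exact h1
  obtain ⟨e, he⟩ := LinearMap.BilinForm.exists_orthogonal_basis hsym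
  have hne := he.not_isOrtho_basis_self_of_separatingLeft hnd
  have hne' : ∀ i, bil Q (e i) (e i) ≠ 0 := fun i h => hne i h
  have hc : ∀ i, ∃ c : ℂ, c ^ 2 = bil Q (e i) (e i) := fun i =>
    IsAlgClosed.exists_pow_nat_eq _ two_pos
  choose c hc using hc
  have hc0 : ∀ i, c i ≠ 0 := fun i h => hne' i (by rw [← hc i, h]; ring)
  have horth : ∀ i j, bil Q ((c i)⁻¹ • (e i : ι → ℂ)) ((c j)⁻¹ • (e j : ι → ℂ)) =
      if i = j then 1 else 0 := by
    intro i j
    rw [bil_smul_left, bil_smul_right]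
    split_ifs with h
    · subst h
      rw [← hc i]
      field_simp [hc0 i]
    · have h1 : bil Q (e i) (e j) = 0 := he h
      rw [h1]; ring
  refine ⟨_, fun i => (c i)⁻¹ • (e i : ι → ℂ), horth, fun i => ?_, fun w => ?_⟩
  · rw [Matrix.mulVec_smul, hM]
  · -- expansion
    let x : M := ⟨P *ᵥ w, w, rfl⟩
    have h1 : (x : ι → ℂ) = ∑ i, (e.repr x i * c i) • ((c i)⁻¹ • (e i : ι → ℂ)) := by
      conv_lhs => rw [← e.sum_repr x]
      rw [Submodule.coe_sum]
      refine Finset.sum_congr rfl fun i _ => ?_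
      rw [smul_smul, mul_assoc, mul_inv_cancel₀ (hc0 i), mul_one]
      rfl
    have h2 : ∀ j, bil Q ((c j)⁻¹ • (e j : ι → ℂ)) w = e.repr x j * c j := by
      intro j
      have h3 : bil Q ((c j)⁻¹ • (e j : ι → ℂ)) w = bil Q ((c j)⁻¹ • (e j : ι → ℂ)) x := by
        rw [show (x : ι → ℂ) = P *ᵥ w from rfl, ← bil_mulVec hPQ, Matrix.mulVec_smul, hM]
      rw [h3, h1, bil_sum_right, Finset.sum_eq_single j]
      · rw [bil_smul_right, horth, if_pos rfl, mul_one]
      · intro i _ hi
        rw [bil_smul_right, horth, if_neg (Ne.symm hi), mul_zero]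
      · intro h; exact absurd (Finset.mem_univ _) h
    rw [show P *ᵥ w = (x : ι → ℂ) from rfl, h1]
    exact Finset.sum_congr rfl fun j _ => by rw [h2]

/-- Two rotations. -/
lemma rot2 [DecidableEq ι] {Q P : Matrix ι ι ℂ} {𝒢 : Submonoid (Matrix ι ι ℂ)} (hQ : Qᵀ = Q)
    (rot : ∀ v v' : ι → ℂ, P *ᵥ v = v → P *ᵥ v' = v' → bil Q v v = bil Q v' v' → bil Q v v ≠ 0 →
      bil Q v v' ^ 2 ≠ bil Q v v ^ 2 → ∃ R ∈ 𝒢, R.det = 1 ∧ R *ᵥ v' = v ∧
        ∀ w, bil Q v w = 0 → bil Q v' w = 0 → R *ᵥ w = w)
    {v v' w : ι → ℂ} (hv : P *ᵥ v = v) (hv' : P *ᵥ v' = v') (hw : P *ᵥ w = w) {q : ℂ}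
    (h1 : bil Q v v = q) (h2 : bil Q v' v' = q) (h3 : bil Q w w = q) (h4 : bil Q v w = 0)
    (hq : q ≠ 0) :
    ∃ R ∈ 𝒢, R.det = 1 ∧ R *ᵥ v' = v ∧
      ∀ u, bil Q v u = 0 → bil Q v' u = 0 → bil Q w u = 0 → R *ᵥ u = u := by
  -- a composition of two rotations
  have comp : ∀ z, P *ᵥ z = z → bil Q z z = q → (bil Q z v') ^ 2 ≠ q ^ 2 →
      (bil Q v z) ^ 2 ≠ q ^ 2 → (∀ u, bil Q v u = 0 → bil Q w u = 0 → bil Q z u = 0) →
      ∃ R ∈ 𝒢, R.det = 1 ∧ R *ᵥ v' = v ∧
      ∀ u, bil Q v u = 0 → bil Q v' u = 0 → bil Q w u = 0 → R *ᵥ u = u := by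
    intro z hz hzz hz1 hz2 hzu
    obtain ⟨R, hR, hRd, hR1, hR2⟩ := rot z v' hz hv' (hzz.trans h2.symm) (by rwa [hzz])
      (by rwa [hzz])
    obtain ⟨S, hS, hSd, hS1, hS2⟩ := rot v z hv hz (h1.trans hzz.symm) (by rwa [h1])
      (by rwa [h1])
    refine ⟨S * R, 𝒢.mul_mem hS hR, ?_, ?_, fun u hu1 hu2 hu3 => ?_⟩
    · rw [Matrix.det_mul, hSd, hRd, one_mul]
    · rw [← Matrix.mulVec_mulVec, hR1, hS1]
    · rw [← Matrix.mulVec_mulVec, hR2 u (hzu u hu1 hu3) hu2, hS2 u hu1 (hzu u hu1 hu3)]
  by_cases hm : (bil Q v v') ^ 2 = q ^ 2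
  · by_cases hm' : (bil Q w v') ^ 2 = q ^ 2
    · refine comp ((3 / 5 : ℂ) • v + (4 / 5 : ℂ) • w) (by
        rw [Matrix.mulVec_add, Matrix.mulVec_smul, Matrix.mulVec_smul, hv, hw]) ?_ ?_ ?_ ?_
      · have h4' : bil Q w v = 0 := by rw [bil_symm hQ]; exact h4
        simp only [bil_add_left, bil_add_right, bil_smul_left, bil_smul_right, h1, h3, h4, h4']
        ring
      · simp only [bil_add_left, bil_smul_left]
        intro hcon
        have e1 : (bil Q v v' - q) * (bil Q v v' + q) = 0 := by linear_combination hm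
        have e2 : (bil Q w v' - q) * (bil Q w v' + q) = 0 := by linear_combination hm'
        have hq2 : q ^ 2 ≠ 0 := pow_ne_zero _ hq
        rcases mul_eq_zero.1 e1 with a | a <;> rcases mul_eq_zero.1 e2 with b | b
        · have a' : bil Q v v' = q := by linear_combination a
          have b' : bil Q w v' = q := by linear_combination b
          rw [a', b'] at hcon
          apply hq2
          linear_combination (25 / 24 : ℂ) * hcon
        · have a' : bil Q v v' = q := by linear_combination a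
          have b' : bil Q w v' = -q := by linear_combination b
          rw [a', b'] at hcon
          apply hq2
          linear_combination (-(25 / 24) : ℂ) * hcon
        · have a' : bil Q v v' = -q := by linear_combination a
          have b' : bil Q w v' = q := by linear_combination b
          rw [a', b'] at hcon
          apply hq2
          linear_combination (-(25 / 24) : ℂ) * hcon
        · have a' : bil Q v v' = -q := by linear_combination a
          have b' : bil Q w v' = -q := by linear_combination b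
          rw [a', b'] at hcon
          apply hq2
          linear_combination (25 / 24 : ℂ) * hcon
      · simp only [bil_add_right, bil_smul_right, h1, h4]
        intro hcon
        apply pow_ne_zero 2 hq
        linear_combination (-(25 / 16) : ℂ) * hcon
      · intro u hu1 hu2
        simp only [bil_add_left, bil_smul_left, hu1, hu2, mul_zero, add_zero]
    · refine comp w hw h3 hm' ?_ fun u _ hu => hu
      rw [h4]
      intro hcon
      exact pow_ne_zero 2 hq (by rw [← hcon]; ring)
  · obtain ⟨R, hR, hRd, hR1, hR2⟩ := rot v v' hv hv' (h1.trans h2.symm) (by rwa [h1])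
      (by rwa [h1])
    exact ⟨R, hR, hRd, hR1, fun u hu1 hu2 _ => hR2 u hu1 hu2⟩

/-- An isometry preserves the form. -/
lemma bil_iso {Q g : Matrix ι ι ℂ} (hg : gᵀ * Q * g = Q) (v w : ι → ℂ) :
    bil Q (g *ᵥ v) (g *ᵥ w) = bil Q v w := by
  unfold bil
  conv_rhs => rw [← hg]
  rw [← Matrix.mulVec_mulVec, ← Matrix.mulVec_mulVec, Matrix.dotProduct_mulVec v,
    Matrix.vecMul_transpose]

end

theorem t_SO : S_SO := by
  classical
  intro ι _ _ Q P 𝒢 hQ hd hP hPQ hiso hinv rot g hg hgd hfix
  obtain ⟨s, b, hb1, hb2, hb3⟩ := exists_onb hQ hd hP hPQ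
  -- isometries which fix the kernel of `P` preserve its image
  have hstab : ∀ g : Matrix ι ι ℂ, gᵀ * Q * g = Q → (∀ w, P *ᵥ w = 0 → g *ᵥ w = w) →
      ∀ v, P *ᵥ v = v → P *ᵥ (g *ᵥ v) = g *ᵥ v := by
    intro g hg hfix v hv
    rw [← sub_eq_zero]
    apply bil_nondeg hd
    intro u
    -- `u - P u` is in the kernel
    have h1 : P *ᵥ (u - P *ᵥ u) = 0 := by
      rw [Matrix.mulVec_sub, Matrix.mulVec_mulVec, hP, sub_self]
    have h2 : bil Q (u - P *ᵥ u) (g *ᵥ v) = 0 := by
      rw [← hfix _ h1, bil_iso hg, ← hv, ← bil_mulVec hPQ, h1]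
      simp [bil]
    rw [bil_sub_right, ← bil_mulVec hPQ]
    rw [bil_sub_left] at h2
    linear_combination -h2
  have key : ∀ (n : ℕ) (S : Finset (Fin s)), Sᶜ.card = n →
      ∀ g : Matrix ι ι ℂ, gᵀ * Q * g = Q → g.det = 1 → (∀ w, P *ᵥ w = 0 → g *ᵥ w = w) →
      (∀ i ∈ S, g *ᵥ b i = b i) → g ∈ 𝒢 := by
    intro n
    induction n with
    | zero =>
      intro S hS g _ _ hfix hfixS
      have h1 : g = 1 := by
        rw [← Matrix.mulVec_injective.eq_iff]
        funext w
        have h2 : P *ᵥ (w - P *ᵥ w) = 0 := by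
          rw [Matrix.mulVec_sub, Matrix.mulVec_mulVec, hP, sub_self]
        have h3 := hfix _ h2
        have h4 : g *ᵥ (P *ᵥ w) = P *ᵥ w := by
          rw [hb3, Matrix.mulVec_sum]
          refine Finset.sum_congr rfl fun j _ => ?_
          rw [Matrix.mulVec_smul, hfixS]
          by_contra hcon
          have h5 : j ∈ Sᶜ := Finset.mem_compl.2 hcon
          rw [Finset.card_eq_zero.1 hS] at h5
          exact Finset.notMem_empty _ h5
        rw [Matrix.mulVec_sub, h4] at h3
        rw [Matrix.one_mulVec]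
        exact sub_left_injective h3
      rw [h1]
      exact 𝒢.one_mem
    | succ n ih =>
      intro S hS g hg hgd hfix hfixS
      obtain ⟨j, hj⟩ : ∃ j, j ∈ Sᶜ := Finset.card_pos.1 (by omega)
      rw [Finset.mem_compl] at hj
      have hv' : P *ᵥ (g *ᵥ b j) = g *ᵥ b j := hstab g hg hfix _ (hb2 j)
      have horth : ∀ i ∈ S, bil Q (g *ᵥ b j) (b i) = 0 := by
        intro i hi
        conv_lhs => rw [← hfixS i hi]
        rw [bil_iso hg, hb1, if_neg]
        rintro rfl
        exact hj hi
      rcases Nat.eq_zero_or_pos n with rfl | hn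
      · -- the last vector
        obtain ⟨c, hc⟩ : ∃ c, c = bil Q (b j) (g *ᵥ b j) := ⟨_, rfl⟩
        have hS' : ∀ i, i ≠ j → i ∈ S := by
          intro i hi
          by_contra hcon
          obtain ⟨a, ha⟩ := Finset.card_eq_one.1 hS
          have e1 : i = a := by
            have := Finset.mem_compl.2 hcon
            rw [ha] at this
            exact Finset.mem_singleton.1 this
          have e2 : j = a := by
            have := Finset.mem_compl.2 hj
            rw [ha] at this
            exact Finset.mem_singleton.1 this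
          exact hi (e1.trans e2.symm)
        have h1 : g *ᵥ b j = c • b j := by
          rw [← hv', hb3, Finset.sum_eq_single j]
          · rw [hc]
          · intro i _ hi
            rw [bil_symm hQ, horth i (hS' i hi), zero_smul]
          · intro h; exact absurd (Finset.mem_univ _) h
        have h2 : g = 1 + Matrix.vecMulVec ((c - 1) • b j) (Q *ᵥ b j) := by
          rw [← Matrix.mulVec_injective.eq_iff]
          funext w
          have h2 : P *ᵥ (w - P *ᵥ w) = 0 := by
            rw [Matrix.mulVec_sub, Matrix.mulVec_mulVec, hP, sub_self]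
          have h3 := hfix _ h2
          have h4 : g *ᵥ (P *ᵥ w) = P *ᵥ w + (bil Q (b j) w * (c - 1)) • b j := by
            conv_lhs => rw [hb3, Matrix.mulVec_sum]
            conv_rhs => rw [hb3]
            rw [← Finset.add_sum_erase _ _ (Finset.mem_univ j),
              ← Finset.add_sum_erase (Finset.univ) (fun j => bil Q (b j) w • b j)
                (Finset.mem_univ j), Matrix.mulVec_smul, h1]
            have h5 : ∑ i ∈ Finset.univ.erase j, g *ᵥ (bil Q (b i) w • b i) =
                ∑ i ∈ Finset.univ.erase j, bil Q (b i) w • b i :=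
              Finset.sum_congr rfl fun i hi => by
                rw [Matrix.mulVec_smul, hfixS i (hS' i (Finset.ne_of_mem_erase hi))]
            rw [h5]
            module
          rw [Matrix.mulVec_sub, h4] at h3
          rw [Matrix.add_mulVec, Matrix.one_mulVec, Matrix.vecMulVec_mulVec]
          have h6 : (Q *ᵥ b j) ⬝ᵥ w = bil Q (b j) w := by
            rw [bil_symm hQ, bil, dotProduct_comm]
          rw [h6, op_smul_eq_smul, smul_smul]
          have h7 : g *ᵥ w = (g *ᵥ w - (P *ᵥ w + (bil Q (b j) w * (c - 1)) • b j)) +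
            (P *ᵥ w + (bil Q (b j) w * (c - 1)) • b j) := by abel
          rw [h7, h3]
          abel
        have h3 : c = 1 := by
          rw [h2] at hgd
          rw [Matrix.vecMulVec_eq Unit, Matrix.det_one_add_replicateCol_mul_replicateRow,
            dotProduct_comm] at hgd
          have h8 : bil Q ((c - 1) • b j) (b j) = c - 1 := by
            rw [bil_smul_left, hb1, if_pos rfl, mul_one]
          rw [bil] at h8
          rw [h8] at hgd
          linear_combination hgd
        have h4 : g = 1 := by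
          rw [h2, h3, sub_self, zero_smul, Matrix.zero_vecMulVec, add_zero]
        rw [h4]
        exact 𝒢.one_mem
      · -- two rotations
        obtain ⟨j', hj', hne⟩ : ∃ j', j' ∈ Sᶜ ∧ j' ≠ j := by
          have h1 : 1 < Sᶜ.card := by omega
          exact Finset.exists_mem_ne h1 j
        rw [Finset.mem_compl] at hj'
        obtain ⟨R, hR, hRd, hR1, hR2⟩ := rot2 (v := b j) (v' := g *ᵥ b j) (w := b j') (q := 1) hQ
          rot (hb2 j) hv' (hb2 j') (by rw [hb1, if_pos rfl]) (by rw [bil_iso hg, hb1, if_pos rfl])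
          (by rw [hb1, if_pos rfl]) (by rw [hb1, if_neg (Ne.symm hne)]) one_ne_zero
        have hRfix : ∀ i ∈ S, R *ᵥ b i = b i := by
          intro i hi
          refine hR2 _ ?_ (horth i hi) ?_
          · rw [hb1, if_neg]
            rintro rfl
            exact hj hi
          · rw [hb1, if_neg]
            rintro rfl
            exact hj' hi
        have hRker : ∀ w, P *ᵥ w = 0 → R *ᵥ w = w := by
          intro w hw
          have h0 : ∀ z, P *ᵥ z = z → bil Q z w = 0 := by
            intro z hz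
            rw [← hz, bil_mulVec hPQ, hw]
            simp [bil]
          exact hR2 w (h0 _ (hb2 j)) (h0 _ hv') (h0 _ (hb2 j'))
        have h1 : R * g ∈ 𝒢 := by
          refine ih (insert j S) ?_ (R * g) ?_ (by rw [Matrix.det_mul, hRd, hgd, one_mul]) ?_ ?_
          · rw [Finset.compl_insert, Finset.card_erase_of_mem (Finset.mem_compl.2 hj), hS]
            rfl
          · rw [Matrix.transpose_mul]
            calc gᵀ * Rᵀ * Q * (R * g) = gᵀ * (Rᵀ * Q * R) * g := by
                  simp only [Matrix.mul_assoc]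
              _ = Q := by rw [hiso R hR, hg]
          · intro w hw
            rw [← Matrix.mulVec_mulVec, hfix w hw, hRker w hw]
          · intro i hi
            rw [← Matrix.mulVec_mulVec]
            rcases Finset.mem_insert.1 hi with rfl | hi
            · exact hR1
            · rw [hfixS i hi, hRfix i hi]
        obtain ⟨R', hR', hRR⟩ := hinv R hR
        have h2 : g = R' * (R * g) := by
          rw [← Matrix.mul_assoc, mul_eq_one_comm.1 hRR, Matrix.one_mul]
        rw [h2]
        exact 𝒢.mul_mem hR' h1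
  exact key _ ∅ rfl g hg hgd hfix (fun i hi => absurd hi (Finset.notMem_empty _))

end Pool.Agent.V5helper29.ZL
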