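import Pool.Agent.V5helper90.ZL.Stm
import Pool.Agent.V5helper29.ZL.SO

/-!
# The group of all Hodge classes from the blocks (job GRP)
-/

set_option autoImplicit false

namespace Pool.Agent.V5helper29.ZL

open Matrix Pool.Agent.N996.BP Pool.Agent.N996.FP
open Pool.Agent.V5helper90.ZL
open Pool.Agent.V5helper89.KZ.KD (B U Wm B_apply QQ B_of_fixQ)

variable {ι : Type} [Fintype ι] [DecidableEq ι]

/-- The matrix which acts as `g` on the image of `P` and trivially on the kernel. -/
def EE (P g : Matrix ι ι ℂ) : Matrix ι ι ℂ := 1 - P + g * P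

lemma EE_iso {Q P g : Matrix ι ι ℂ} (hQ : Qᵀ = Q) (hP : P * P = P) (hPQ : Pᵀ * Q = Q * P)
    (hgP : g * P = P * g) (hg : gᵀ * Q * g = Q) : (EE P g)ᵀ * Q * EE P g = Q := by
  have h1 : (1 - P)ᵀ * Q = Q * (1 - P) := by
    rw [Matrix.transpose_sub, Matrix.transpose_one, Matrix.sub_mul, Matrix.mul_sub, hPQ,
      Matrix.one_mul, Matrix.mul_one]
  have h2 : (1 - P)ᵀ * Q * (g * P) = 0 := by
    rw [h1, hgP, Matrix.mul_assoc, ← Matrix.mul_assoc (1 - P), Matrix.sub_mul, Matrix.one_mul, hP,
      sub_self, Matrix.zero_mul, Matrix.mul_zero]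
  have h3 : (g * P)ᵀ * Q * (1 - P) = 0 := by
    have h4 := congrArg Matrix.transpose h2
    rw [Matrix.transpose_mul, Matrix.transpose_mul (1 - P)ᵀ Q, Matrix.transpose_transpose, hQ,
      Matrix.transpose_zero, ← Matrix.mul_assoc] at h4
    exact h4
  have h5 : (g * P)ᵀ * Q * (g * P) = Q * P := by
    rw [Matrix.transpose_mul]
    calc Pᵀ * gᵀ * Q * (g * P) = Pᵀ * (gᵀ * Q * g) * P := by simp only [Matrix.mul_assoc]
      _ = Q * P := by rw [hg, hPQ, Matrix.mul_assoc, hP]
  have h6 : (1 - P)ᵀ * Q * (1 - P) = Q * (1 - P) := by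
    rw [h1, Matrix.mul_assoc]
    congr 1
    rw [Matrix.sub_mul, Matrix.one_mul, Matrix.mul_sub, Matrix.mul_one, hP, sub_self, sub_zero]
  rw [EE, Matrix.transpose_add, Matrix.add_mul, Matrix.add_mul, Matrix.mul_add, Matrix.mul_add,
    h2, h3, h5, h6, Matrix.mul_sub, Matrix.mul_one]
  abel

lemma EE_mul {P P' g : Matrix ι ι ℂ} (h : P * P' = 0) (hgP : g * P = P * g) :
    EE P g * EE P' g = EE (P + P') g := by
  have h1 : P * (g * P') = 0 := by
    rw [← Matrix.mul_assoc, ← hgP, Matrix.mul_assoc, h, Matrix.mul_zero]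
  have h2 : g * P * P' = 0 := by rw [Matrix.mul_assoc, h, Matrix.mul_zero]
  have h3 : g * P * (g * P') = 0 := by rw [Matrix.mul_assoc, h1, Matrix.mul_zero]
  simp only [EE, Matrix.mul_add, Matrix.add_mul, Matrix.mul_sub, Matrix.sub_mul, Matrix.one_mul,
    Matrix.mul_one, h, h1, h2, h3]
  abel

lemma EE_comm {P P' g : Matrix ι ι ℂ} (h : P' * P = P * P') (hgP : g * P' = P' * g) :
    P' * EE P g = EE P g * P' := by
  rw [EE, Matrix.mul_add, Matrix.add_mul, Matrix.mul_sub, Matrix.sub_mul, Matrix.mul_one,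
    Matrix.one_mul, h, ← Matrix.mul_assoc, ← hgP, Matrix.mul_assoc, h, ← Matrix.mul_assoc]

/-- All blocks together. -/
lemma EE_all {C : Type} [Fintype C] [DecidableEq C] (P : C → Matrix ι ι ℂ) (bar : C → C)
    (𝒢 : Submonoid (Matrix ι ι ℂ)) (g : Matrix ι ι ℂ) (orth : ∀ c c', c ≠ c' → P c * P c' = 0)
    (hbb : ∀ c, bar (bar c) = c) (hgP : ∀ c, g * P c = P c * g)
    (h1 : ∀ c, bar c = c → EE (P c) g ∈ 𝒢) (h2 : ∀ c, bar c ≠ c → EE (P c + P (bar c)) g ∈ 𝒢) :
    EE (∑ c, P c) g ∈ 𝒢 := by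
  have key : ∀ (n : ℕ) (S : Finset C), S.card = n → (∀ c ∈ S, bar c ∈ S) →
      EE (∑ c ∈ S, P c) g ∈ 𝒢 := by
    intro n
    induction n using Nat.strong_induction_on with
    | _ n ih =>
      intro S hS hbar
      rcases S.eq_empty_or_nonempty with rfl | ⟨c, hc⟩
      · rw [Finset.sum_empty]
        have : EE (0 : Matrix ι ι ℂ) g = 1 := by simp [EE]
        rw [this]
        exact 𝒢.one_mem
      · have hT : ({c, bar c} : Finset C) ⊆ S := by
          intro x hx
          rcases Finset.mem_insert.1 hx with rfl | hx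
          · exact hc
          · rw [Finset.mem_singleton.1 hx]
            exact hbar c hc
        have h3 : ∑ x ∈ S, P x = ∑ x ∈ ({c, bar c} : Finset C), P x +
            ∑ x ∈ S \ {c, bar c}, P x := by
          rw [add_comm, Finset.sum_sdiff hT]
        have h4 : EE (∑ x ∈ S, P x) g = EE (∑ x ∈ ({c, bar c} : Finset C), P x) g *
            EE (∑ x ∈ S \ {c, bar c}, P x) g := by
          rw [h3, EE_mul]
          · rw [Finset.sum_mul_sum]
            refine Finset.sum_eq_zero fun x hx => Finset.sum_eq_zero fun y hy => ?_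
            refine orth x y ?_
            rintro rfl
            exact (Finset.mem_sdiff.1 hy).2 hx
          · rw [Finset.mul_sum, Finset.sum_mul]
            exact Finset.sum_congr rfl fun x _ => hgP x
        rw [h4]
        refine 𝒢.mul_mem ?_ ?_
        · by_cases hb : bar c = c
          · rw [hb, Finset.pair_eq_singleton, Finset.sum_singleton]
            exact h1 c hb
          · rw [Finset.sum_pair (Ne.symm hb)]
            exact h2 c hb
        · refine ih _ ?_ (S \ {c, bar c}) rfl ?_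
          · rw [← hS]
            apply Finset.card_lt_card
            rw [Finset.ssubset_iff_of_subset Finset.sdiff_subset]
            exact ⟨c, hc, fun h => (Finset.mem_sdiff.1 h).2 (Finset.mem_insert_self _ _)⟩
          · intro x hx
            rw [Finset.mem_sdiff] at hx ⊢
            refine ⟨hbar x hx.1, fun h => hx.2 ?_⟩
            rcases Finset.mem_insert.1 h with h | h
            · have h5 : x = bar c := by rw [← h, hbb]
              rw [h5]
              exact Finset.mem_insert_of_mem (Finset.mem_singleton_self _)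
            · have h5 : x = c := by
                rw [← hbb x, Finset.mem_singleton.1 h, hbb]
              rw [h5]
              exact Finset.mem_insert_self _ _
  exact key _ Finset.univ rfl fun c _ => Finset.mem_univ _

lemma tr_of_fixes {H : HData ι} {g : Matrix ι ι ℂ} (h : Fixes H g (Unit ⊕ Unit)) :
    gᵀ * cQ H.Qr * g = cQ H.Qr := by
  have h0 : ∀ u v, B H (g *ᵥ u) (g *ᵥ v) = B H u v := B_of_fixQ (fix_Q H h)
  ext i j
  have h1 := h0 (Pi.single i 1) (Pi.single j 1)
  rw [B_apply, B_apply] at h1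
  have h2 : ∀ A : Matrix ι ι ℂ, (Pi.single i (1 : ℂ)) ⬝ᵥ (A *ᵥ Pi.single j 1) = A i j := by
    intro A
    rw [single_one_dotProduct, Matrix.mulVec_single_one, Matrix.col_apply]
  rw [h2] at h1
  rw [← h1, ← h2 (gᵀ * cQ H.Qr * g), ← Matrix.mulVec_mulVec, ← Matrix.mulVec_mulVec,
    Matrix.dotProduct_mulVec, Matrix.vecMul_transpose]

lemma isUnit_Q (H : HData ι) : IsUnit (cQ H.Qr).det := by
  rw [isUnit_iff_ne_zero]
  intro h0
  have h3 := congrArg Matrix.det (QQ (H := H))
  rw [Matrix.det_mul, h0, zero_mul, Matrix.det_one] at h3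
  exact zero_ne_one h3

lemma comm_of_span {H : HData ι} {x g : Matrix ι ι ℂ}
    (hx : x ∈ Submodule.span ℂ (cQ '' {x | IsHE H x})) (hg : Fixes H g (Unit ⊕ Unit)) :
    g * x = x * g := by
  induction hx using Submodule.span_induction with
  | mem y hy =>
    obtain ⟨y, hy, rfl⟩ := hy
    exact IsHE.comm_fix hy hg
  | zero => rw [Matrix.mul_zero, Matrix.zero_mul]
  | add y z _ _ h1 h2 => rw [Matrix.mul_add, Matrix.add_mul, h1, h2]
  | smul c y _ h1 => rw [Matrix.mul_smul, Matrix.smul_mul, h1]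

theorem t_GRP (hSO : S_SO) (hGL : S_GL) (hROT : S_ROT) (hDIL : S_DIL) : S_GRP := by
  intro ι _ _ H τ C _ _ P bar hB g hgal hg2 hdet
  have hQ : (cQ H.Qr)ᵀ = cQ H.Qr := by
    ext i j
    rw [Matrix.transpose_apply, cQ, Matrix.map_apply, Matrix.map_apply, hB.sym]
  have hd := isUnit_Q H
  have hgP : ∀ c, g * P c = P c * g := fun c => comm_of_span (hB.comm c) hg2
  have hgQ : gᵀ * cQ H.Qr * g = cQ H.Qr := tr_of_fixes hg2
  have hE : EE (∑ c, P c) g = g := by
    have h0 : ∀ i, EE (∑ c, P c) g *ᵥ Pi.single i 1 = g *ᵥ Pi.single i 1 := by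
      intro i
      rw [EE, Matrix.add_mulVec, Matrix.sub_mulVec, Matrix.one_mulVec, ← Matrix.mulVec_mulVec]
      by_cases hi : τ i
      · rw [hB.sum _ (Pool.Agent.V5helper89.KZ.KD.single_U hi), sub_self, zero_add]
      · have h1 : (∑ c, P c) *ᵥ Pi.single i 1 = 0 := by
          rw [Matrix.sum_mulVec]
          exact Finset.sum_eq_zero fun c _ => hB.alg c i hi
        rw [h1, sub_zero, Matrix.mulVec_zero, add_zero, hgal i hi]
    ext i j
    have h1 := congrFun (h0 j) i
    rwa [Matrix.mulVec_single_one, Matrix.mulVec_single_one, Matrix.col_apply,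
      Matrix.col_apply] at h1
  rw [← hE]
  have hiso : ∀ g ∈ So H, gᵀ * cQ H.Qr * g = cQ H.Qr := fun g hg => tr_of_fixes (hg _)
  refine EE_all P bar (So H) g hB.orth hB.bar_bar hgP (fun c hc => ?_) (fun c hc => ?_)
  · have hadj := hB.adj c
    rw [hc] at hadj
    refine hSO ι (cQ H.Qr) (P c) (So H) hQ hd (hB.idem c) hadj hiso
      (fun g hg => So_ex_inv hg) ?_ _ (EE_iso hQ (hB.idem c) hadj (hgP c) hgQ) (hdet c hc) ?_
    · intro v v' hv hv' h1 h2 h3
      exact hROT ι H hB.sym v v' (hB.lie c v v' hv (by rwa [hc])) h1 h2 h3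
    · intro w hw
      rw [EE, Matrix.add_mulVec, Matrix.sub_mulVec, Matrix.one_mulVec, ← Matrix.mulVec_mulVec, hw,
        Matrix.mulVec_zero, sub_zero, add_zero]
  · have hadj := hB.adj c
    have hadj' := hB.adj (bar c)
    rw [hB.bar_bar] at hadj'
    have ho1 := hB.orth c (bar c) (Ne.symm hc)
    have ho2 := hB.orth (bar c) c hc
    have hid : (P c + P (bar c)) * (P c + P (bar c)) = P c + P (bar c) := by
      rw [Matrix.add_mul, Matrix.mul_add, Matrix.mul_add, hB.idem, hB.idem, ho1, ho2, add_zero,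
        zero_add]
    have hsa : (P c + P (bar c))ᵀ * cQ H.Qr = cQ H.Qr * (P c + P (bar c)) := by
      rw [Matrix.transpose_add, Matrix.add_mul, hadj, hadj', Matrix.mul_add, add_comm]
    have hgPP : g * (P c + P (bar c)) = (P c + P (bar c)) * g := by
      rw [Matrix.mul_add, Matrix.add_mul, hgP, hgP]
    refine hGL ι (cQ H.Qr) (P c) (P (bar c)) (So H) hQ hd (hB.idem c) (hB.idem _) ho1 ho2 hadj ?_ _
      (EE_iso hQ hid hsa hgPP hgQ) ?_ ?_ ?_
    · intro u v hu hv huv t ht
      refine hDIL ι H hB.sym u v (hB.lie c u v hu hv) ?_ ?_ huv t ht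
      · rw [← hu, bil_mulVec hadj, Matrix.mulVec_mulVec, ho2, Matrix.zero_mulVec]
        simp [bil]
      · rw [← hv, bil_mulVec hadj', Matrix.mulVec_mulVec, ho1, Matrix.zero_mulVec]
        simp [bil]
    · exact EE_comm (by rw [Matrix.mul_add, Matrix.add_mul, ho1, ho2]) (hgP c)
    · exact EE_comm (by rw [Matrix.mul_add, Matrix.add_mul, ho1, ho2]) (hgP (bar c))
    · intro w hw hw'
      rw [EE, Matrix.add_mulVec, Matrix.sub_mulVec, Matrix.one_mulVec, ← Matrix.mulVec_mulVec,
        Matrix.add_mulVec, hw, hw', add_zero, Matrix.mulVec_zero, sub_zero, add_zero]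

end Pool.Agent.V5helper29.ZL
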